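import Mathlib
import Pool.Agent.Q184.FixFree.Main

/-!
# A bounded subset of the hyperbolic plane with a fixed-point-free group of piecewise isometries

The hyperbolic plane is Mathlib's upper half-plane.
-/

open UpperHalfPlane Set

namespace Pool.Agent.Results.MP_e721cf_gt.FixedPointFree

/-- The bijection `f` of `X` is a piecewise isometry: there are a partition of `X` into finitely many
pieces `P i` and isometries `g i` of the hyperbolic plane such that `f = g i` on `P i`. -/
def IsPiecewiseIsometry (X : Set ℍ) (f : Equiv.Perm X) : Prop :=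
  ∃ (n : ℕ) (P : Fin n → Set ℍ) (g : Fin n → ℍ ≃ᵢ ℍ),
    (∀ i j, i ≠ j → Disjoint (P i) (P j)) ∧ (⋃ i, P i) = X ∧
    ∀ i, ∀ x : X, (x : ℍ) ∈ P i → (f x : ℍ) = g i x

/-- `φ` and `ψ` are independent: no nontrivial reduced word in `φ^{±1}`, `ψ^{±1}` is the
identity. -/
def Independent {X : Set ℍ} (φ ψ : Equiv.Perm X) : Prop :=
  ∀ w : FreeGroup (Fin 2), w ≠ 1 → FreeGroup.lift ![φ, ψ] w ≠ 1

theorem isPiecewiseIsometry_of {f : Equiv.Perm Q184.FixFree.Xset} (hf : Q184.FixFree.FI f) :
    IsPiecewiseIsometry Q184.FixFree.Xset f := by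
  classical
  obtain ⟨S, hS, hf⟩ := hf
  have := hS.fintype
  let e := Fintype.equivFin S
  have h1 : ∀ x : Q184.FixFree.Xset, ∃ i : Fin (Fintype.card S),
      (f x : ℍ) = (e.symm i).1 x := by
    intro x
    obtain ⟨g, hg, hx⟩ := hf x
    exact ⟨e ⟨g, hg⟩, by rw [Equiv.symm_apply_apply]; exact hx⟩
  choose idx hidx using h1
  refine ⟨Fintype.card S, fun i => {y | ∃ x : Q184.FixFree.Xset, (x : ℍ) = y ∧ idx x = i},
    fun i => (e.symm i).1, ?_, ?_, ?_⟩
  · intro i j hij
    rw [Set.disjoint_left]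
    rintro y ⟨x, hx, hi⟩ ⟨x', hx', hj⟩
    have : x = x' := Subtype.ext (hx.trans hx'.symm)
    subst this
    exact hij (hi.symm.trans hj)
  · ext y
    simp only [mem_iUnion]
    constructor
    · rintro ⟨i, x, hx, -⟩
      rw [← hx]
      exact x.2
    · intro hy
      exact ⟨idx ⟨y, hy⟩, ⟨y, hy⟩, rfl, rfl⟩
  · rintro i x ⟨x', hx', hi⟩
    have : x' = x := Subtype.ext hx'
    subst this
    rw [hidx x', hi]

theorem bounded : Bornology.IsBounded Q184.FixFree.Xset := by
  rw [Metric.isBounded_iff]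
  refine ⟨20, ?_⟩
  intro z hz w hw
  have key : ∀ z ∈ Q184.FixFree.Xset, 1 / 2 < z.im ∧ z.im ≤ 3 / 5 ∧ 0 < z.re ∧ z.re ≤ 1 := by
    intro z hz
    obtain ⟨⟨h1, h2⟩, h3, h4, h5⟩ := hz
    refine ⟨h1, h2, h3, ?_⟩
    rw [Q184.FixFree.im_io, lt_div_iff₀ (by positivity)] at h4
    by_contra h
    push Not at h
    nlinarith
  obtain ⟨a1, a2, a3, a4⟩ := key z hz
  obtain ⟨b1, b2, b3, b4⟩ := key w hw
  have h1 : Real.cosh (dist z w) ≤ 20 := by
    rw [cosh_dist]
    have h2 : dist (z : ℂ) w ^ 2 ≤ 2 := by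
      rw [Complex.dist_eq, ← Complex.normSq_eq_norm_sq, Complex.normSq_apply]
      simp only [Complex.sub_re, Complex.sub_im, coe_re, coe_im]
      nlinarith
    have h3 : 1 / 2 ≤ 2 * z.im * w.im := by nlinarith
    have h4 : dist (z : ℂ) w ^ 2 / (2 * z.im * w.im) ≤ 19 := by
      rw [div_le_iff₀ (by linarith)]
      nlinarith
    linarith
  have h5 : dist z w ≤ Real.sinh (dist z w) := Real.self_le_sinh_iff.mpr dist_nonneg
  have h6 : Real.sinh (dist z w) < Real.cosh (dist z w) := Real.sinh_lt_cosh _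
  linarith

theorem interior_nonempty : (interior Q184.FixFree.Xset).Nonempty := by
  set U : Set ℍ := {z | (1 / 2 < z.im ∧ z.im < 3 / 5) ∧ 0 < z.re ∧
    (1 / 2 < (Q184.FixFree.io z).im ∧ (Q184.FixFree.io z).im < 3 / 5)} with hU
  have c1 : Continuous fun z : ℍ => z.im := continuous_im
  have c2 : Continuous fun z : ℍ => z.re := continuous_re
  have c3 : Continuous fun z : ℍ => (Q184.FixFree.io z).im :=
    continuous_im.comp Q184.FixFree.io.isometry.continuous
  have hopen : IsOpen U :=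
    ((isOpen_lt continuous_const c1).inter (isOpen_lt c1 continuous_const)).inter
      ((isOpen_lt continuous_const c2).inter
        ((isOpen_lt continuous_const c3).inter (isOpen_lt c3 continuous_const)))
  have hsub : U ⊆ Q184.FixFree.Xset := by
    rintro z ⟨⟨h1, h2⟩, h3, h4, h5⟩
    exact ⟨⟨h1, h2.le⟩, h3, h4, h5.le⟩
  refine ⟨⟨(84 / 100 : ℝ) + (55 / 100 : ℝ) * Complex.I, by simp⟩, ?_⟩
  refine interior_maximal hsub hopen ?_
  have hre : (⟨(84 / 100 : ℝ) + (55 / 100 : ℝ) * Complex.I, by simp⟩ : ℍ).re = 84 / 100 := by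
    change (((84 / 100 : ℝ) : ℂ) + ((55 / 100 : ℝ) : ℂ) * Complex.I).re = 84 / 100
    rw [Complex.add_re, Complex.ofReal_re, Complex.re_ofReal_mul, Complex.I_re]
    norm_num
  have him : (⟨(84 / 100 : ℝ) + (55 / 100 : ℝ) * Complex.I, by simp⟩ : ℍ).im = 55 / 100 := by
    change (((84 / 100 : ℝ) : ℂ) + ((55 / 100 : ℝ) : ℂ) * Complex.I).im = 55 / 100
    rw [Complex.add_im, Complex.ofReal_im, Complex.im_ofReal_mul, Complex.I_im]
    norm_num
  refine ⟨⟨?_, ?_⟩, ?_, ?_, ?_⟩
  · rw [him]; norm_num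
  · rw [him]; norm_num
  · rw [hre]; norm_num
  · rw [Q184.FixFree.im_io, him, hre]; norm_num
  · rw [Q184.FixFree.im_io, him, hre]; norm_num

/-- There are a bounded subset `X` of the hyperbolic plane with nonempty interior and two
independent piecewise isometries `φ`, `ψ` of `X` such that the group generated by `φ` and `ψ` acts on
`X` without nontrivial fixed points. -/
theorem result : ∃ X : Set ℍ, Bornology.IsBounded X ∧ (interior X).Nonempty ∧
    ∃ φ ψ : Equiv.Perm X, IsPiecewiseIsometry X φ ∧ IsPiecewiseIsometry X ψ ∧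
      Independent φ ψ ∧
      ∀ g ∈ Subgroup.closure {φ, ψ}, (∃ x : X, g x = x) → g = 1 := by
  obtain ⟨f, hf, hfree⟩ := Q184.FixFree.main
  have hne : Nonempty Q184.FixFree.Xset :=
    (interior_nonempty.mono interior_subset).to_subtype
  have hff : ![f 0, f 1] = f := by
    ext i
    fin_cases i <;> rfl
  refine ⟨Q184.FixFree.Xset, bounded, interior_nonempty, f 0, f 1,
    isPiecewiseIsometry_of (hf 0), isPiecewiseIsometry_of (hf 1), ?_, ?_⟩
  · intro w hw h
    rw [hff] at h
    obtain ⟨x⟩ := hne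
    exact hfree w hw x (by rw [h]; rfl)
  · intro g hg hx
    obtain ⟨x, hx⟩ := hx
    have hr : ({f 0, f 1} : Set (Equiv.Perm Q184.FixFree.Xset)) = range f := by
      ext y
      simp only [mem_insert_iff, mem_singleton_iff, mem_range, Fin.exists_fin_two]
      constructor
      · rintro (h | h)
        · exact Or.inl h.symm
        · exact Or.inr h.symm
      · rintro (h | h)
        · exact Or.inl h.symm
        · exact Or.inr h.symm
    rw [hr, ← FreeGroup.range_lift_eq_closure] at hg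
    obtain ⟨w, rfl⟩ := hg
    by_cases hw : w = 1
    · rw [hw, map_one]
    · exact absurd hx (hfree w hw x)

end Pool.Agent.Results.MP_e721cf_gt.FixedPointFree
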